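import Mathlib

/-!
# Modules over Frobenius groups
-/

set_option autoImplicit false

namespace Pool.Agent.TH125.Frob

/-- `G` is a Frobenius group with kernel `N` and complement `H`: `N` is normal, every element of `G`
is uniquely a product `x h` with `x ∈ N`, `h ∈ H`, and every element outside `N` is uniquely of the
form `x h x⁻¹` with `x ∈ N`, `h ∈ H`. -/
structure IsFrobenius {G : Type*} [Group G] (N H : Subgroup G) : Prop where
  normal : N.Normal
  product : ∀ g : G, ∃! x : N × H, (x.1 : G) * x.2 = g
  conjugate : ∀ g : G, g ∉ N → ∃! x : N × H, (x.1 : G) * x.2 * (x.1 : G)⁻¹ = g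

open scoped Classical in
/-- If the sum over `H` annihilates a module over a Frobenius group `G` with kernel `N` and complement
`H`, the sum over `N` is multiplication by the order of `N`. -/
theorem sum_kernel {G : Type*} [Group G] [Fintype G] {N H : Subgroup G} (hF : IsFrobenius N H)
    {A : Type*} [AddCommGroup A] [DistribMulAction G A]
    (hH : ∀ a : A, ∑ h : H, (h : G) • a = 0) (a : A) :
    ∑ x : N, (x : G) • a = Fintype.card N • a := by
  have hN := hF.normal
  -- the sum over `G` vanishes
  have hG : ∑ g : G, g • a = 0 := by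
    have hbij : Function.Bijective (fun x : N × H => (x.1 : G) * x.2) := by
      constructor
      · intro x y hxy
        exact (hF.product ((x.1 : G) * x.2)).unique rfl hxy.symm
      · intro g
        obtain ⟨x, hx, -⟩ := hF.product g
        exact ⟨x, hx⟩
    have h1 : ∑ x : N × H, ((x.1 : G) * x.2) • a = ∑ g : G, g • a :=
      Function.Bijective.sum_comp hbij (fun g => g • a)
    rw [← h1, Fintype.sum_prod_type]
    refine Finset.sum_eq_zero fun x _ => ?_
    have h2 : ∑ h : H, ((x : G) * (h : G)) • a = (x : G) • ∑ h : H, (h : G) • a := by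
      rw [Finset.smul_sum]
      exact Finset.sum_congr rfl fun h _ => mul_smul _ _ _
    rw [h2, hH, smul_zero]
  -- the sum over the complement of `N`
  have hout : ∑ g ∈ Finset.univ.filter (fun g : G => g ∉ N), g • a = -(Fintype.card N • a) := by
    have h1 : ∑ x ∈ Finset.univ.filter (fun x : N × H => (x.2 : G) ≠ 1),
        ((x.1 : G) * x.2 * (x.1 : G)⁻¹) • a =
          ∑ g ∈ Finset.univ.filter (fun g : G => g ∉ N), g • a := by
      refine Finset.sum_bij (fun x _ => (x.1 : G) * x.2 * (x.1 : G)⁻¹) ?_ ?_ ?_ ?_
      · intro x hx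
        rw [Finset.mem_filter] at hx ⊢
        refine ⟨Finset.mem_univ _, fun hmem => hx.2 ?_⟩
        have h2 : (x.2 : G) ∈ N := by
          have := hN.conj_mem _ hmem (x.1 : G)⁻¹
          simpa [mul_assoc] using this
        have h3 := (hF.product (x.2 : G)).unique (y₁ := ((⟨x.2, h2⟩ : N), (1 : H)))
          (y₂ := ((1 : N), x.2)) (by simp) (by simp)
        have h4 : (1 : H) = x.2 := congrArg Prod.snd h3
        rw [← h4]
        rfl
      · intro x hx y hy hxy
        have hx' := (Finset.mem_filter.1 hx).2
        have hxN : (x.1 : G) * x.2 * (x.1 : G)⁻¹ ∉ N := by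
          intro hmem
          apply hx'
          have h2 : (x.2 : G) ∈ N := by
            have := hN.conj_mem _ hmem (x.1 : G)⁻¹
            simpa [mul_assoc] using this
          have h3 := (hF.product (x.2 : G)).unique (y₁ := ((⟨x.2, h2⟩ : N), (1 : H)))
            (y₂ := ((1 : N), x.2)) (by simp) (by simp)
          have h4 : (1 : H) = x.2 := congrArg Prod.snd h3
          rw [← h4]
          rfl
        exact (hF.conjugate _ hxN).unique rfl hxy.symm
      · intro g hg
        have hg' := (Finset.mem_filter.1 hg).2
        obtain ⟨x, hx, -⟩ := hF.conjugate g hg'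
        refine ⟨x, Finset.mem_filter.2 ⟨Finset.mem_univ _, fun h1 => hg' ?_⟩, hx⟩
        rw [← hx, h1]
        simp [N.one_mem]
      · intro x _
        rfl
    rw [← h1, Finset.sum_filter, Fintype.sum_prod_type]
    have h2 : ∀ x : N, ∑ h : H, (if ((h : G)) ≠ 1 then ((x : G) * h * (x : G)⁻¹) • a else 0) =
        -a := by
      intro x
      have h3 : ∑ h : H, ((x : G) * h * (x : G)⁻¹) • a = 0 := by
        have h4 : ∀ h : H, ((x : G) * h * (x : G)⁻¹) • a = (x : G) • ((h : G) • ((x : G)⁻¹ • a)) := by
          intro h
          rw [mul_smul, mul_smul]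
        rw [Finset.sum_congr rfl fun h _ => h4 h, ← Finset.smul_sum, hH, smul_zero]
      have h5 : ∑ h : H, (if ((h : G)) ≠ 1 then ((x : G) * h * (x : G)⁻¹) • a else 0) =
          ∑ h : H, ((x : G) * h * (x : G)⁻¹) • a - a := by
        rw [eq_sub_iff_add_eq]
        rw [← Finset.add_sum_erase _ _ (Finset.mem_univ (1 : H)),
          ← Finset.add_sum_erase Finset.univ (fun h : H => ((x : G) * h * (x : G)⁻¹) • a)
            (Finset.mem_univ (1 : H))]
        simp only [OneMemClass.coe_one, ne_eq, not_true_eq_false, if_false, mul_one, mul_inv_cancel,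
          one_smul, zero_add]
        rw [add_comm]
        congr 1
        refine Finset.sum_congr rfl fun h hh => ?_
        have : (h : G) ≠ 1 := by
          intro h6
          exact (Finset.mem_erase.1 hh).1 (Subtype.ext h6)
        rw [if_pos this]
      rw [h5, h3, zero_sub]
    rw [Finset.sum_congr rfl fun x _ => h2 x, Finset.sum_const, Finset.card_univ, smul_neg]
  have hsplit := Finset.sum_filter_add_sum_filter_not Finset.univ (fun g : G => g ∈ N)
    (fun g => g • a)
  rw [hG, hout] at hsplit
  have hin : ∑ g ∈ Finset.univ.filter (fun g : G => g ∈ N), g • a = ∑ x : N, (x : G) • a := by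
    rw [← Finset.sum_subtype (Finset.univ.filter (fun g : G => g ∈ N)) (p := fun g => g ∈ N)
      (by simp) (fun g => g • a)]
  rw [hin] at hsplit
  exact eq_of_sub_eq_zero (by rw [sub_eq_add_neg]; exact hsplit)

end Pool.Agent.TH125.Frob
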